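import Pool.Agent.Helper45.AM.GoalsA
import Pool.Agent.Helper45.AM.GoalsC

/-!
# Packet AM-C6 (MP_cc6379_al): rewriting `T_x c_k T_y`, merging case.
-/

set_option autoImplicit false

open LaurentPolynomial Pool.Agent.Helper15.RA Pool.Agent.Helper45.AM

noncomputable section

namespace Pool.Agent.Helper44.AM

section base

variable {S W H : Type} [Group W] [Ring H] [Algebra ℤ[T;T⁻¹] H] (X : Base S W H)

theorem sum_repr (Z : H) : Z = (X.b.repr Z).sum fun w p => p • X.D.c w := by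
  conv_lhs => rw [← X.b.linearCombination_repr Z, Finsupp.linearCombination_apply]
  exact Finsupp.sum_congr fun w _ => by rw [X.hb]

theorem repr_mul_c (x y : W) : X.b.repr (X.D.c x * X.D.c y) = X.h x y := by
  rw [X.isH x y]
  have h : (X.h x y).sum (fun z p => p • X.D.c z) = Finsupp.linearCombination ℤ[T;T⁻¹] X.b (X.h x y) := by
    rw [Finsupp.linearCombination_apply]
    exact Finsupp.sum_congr fun w _ => by rw [X.hb]
  rw [h, X.b.repr_linearCombination]

/-- a nonzero coordinate of a product comes from some pair -/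
theorem exists_of_repr_mul {Y Z : H} {z : W} (h : X.b.repr (Y * Z) z ≠ 0) :
    ∃ u w, X.b.repr Y u ≠ 0 ∧ X.b.repr Z w ≠ 0 ∧ X.h u w z ≠ 0 := by
  by_contra hcon
  push Not at hcon
  apply h
  have h1 : Y * Z = (X.b.repr Y).sum fun u p => (X.b.repr Z).sum fun w q => (p * q) • (X.D.c u * X.D.c w) := by
    conv_lhs => rw [sum_repr X Y, sum_repr X Z]
    rw [Finsupp.sum, Finset.sum_mul]
    refine Finset.sum_congr rfl fun u _ => ?_
    rw [Finsupp.sum, Finset.mul_sum]
    refine Finset.sum_congr rfl fun w _ => ?_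
    rw [smul_mul_smul_comm]
  rw [h1, Finsupp.sum, map_sum, Finsupp.coe_finsetSum, Finset.sum_apply]
  refine Finset.sum_eq_zero fun u hu => ?_
  rw [Finsupp.sum, map_sum, Finsupp.coe_finsetSum, Finset.sum_apply]
  refine Finset.sum_eq_zero fun w hw => ?_
  rw [map_smul, Finsupp.smul_apply, repr_mul_c, hcon u w (Finsupp.mem_support_iff.1 hu)
    (Finsupp.mem_support_iff.1 hw), smul_zero]

end base

theorem h_c_6 (hR : A_R) (hS : A_S) (h1 : B_1) (h3 : B_3) (h7 : B_7) : C_6 := by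
  intro S W H _ _ _ X b x k y hx hk hy hx1 hy1
  obtain ⟨b1, b2, b3, b4, b5, b6, b7, b8, b9, b10, b11, b12, b13⟩ := h1 S W H X
  obtain ⟨s1, s2, s3, s4, s5, s6, s7, s8, s9⟩ := h3 S W H X
  obtain ⟨x', a, rfl, hx', ha, haK, ha1, hxl⟩ := b6 b x hx hx1
  obtain ⟨c, y', rfl, hy', hc, hcK, hc1, hyl⟩ := b11 b y hy hy1
  have haK' : a ∉ par X.cs X.K := fun h => ha1 (b8 a (Or.inl haK) h)
  have hcK' : c ∉ par X.cs X.K := fun h => hc1 (b8 c (Or.inr hcK) h)
  have hk' : k ∈ par X.cs (X.F (!b)) := b1 (!b) hk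
  have hKF : X.K ⊆ X.F (!b) := by
    cases b
    · exact Set.inter_subset_left
    · exact Set.inter_subset_right
  have hR' := hR S W H X.toBase X.K (X.F (!b)) X.α hKF X.pgK (X.pg (!b)) a k c
  set η : W →₀ ℤ[T;T⁻¹] := X.b.repr (X.D.t a * X.D.c k * X.D.t c) with hη
  have hsup : ∀ g ∈ par X.cs (X.F (!b)), ∀ z, X.b.repr (X.D.t g) z ≠ 0 → z ∈ par X.cs (X.F (!b)) :=
    (hS S W H X.toBase (X.F (!b))).2.2.2.2.1
  have hsup2 : ∀ u ∈ par X.cs (X.F (!b)), ∀ w ∈ par X.cs (X.F (!b)), ∀ z, X.h u w z ≠ 0 →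
      z ∈ par X.cs (X.F (!b)) := (hS S W H X.toBase (X.F (!b))).2.2.2.2.2.1
  -- `α k ≤ α z`
  have hαz : ∀ z, η z ≠ 0 → X.α k ≤ X.α z := by
    intro z hz
    obtain ⟨w, v, hw, hv, hwv⟩ := exists_of_repr_mul X.toBase hz
    obtain ⟨u, k', hu, hk2, huk⟩ := exists_of_repr_mul X.toBase hw
    have hkk : k' = k := by
      by_contra hne
      apply hk2
      rw [← X.hb, X.b.repr_self, Finsupp.single_eq_of_ne]
      exact hne
    rw [hkk] at huk
    have hu' := hsup a ha u hu
    have hv' := hsup c hc v hv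
    have hw' := hsup2 u hu' k hk' w huk
    have hz' := hsup2 w hw' v hv' z hwv
    exact ((X.pg (!b)).p4 u hu' k hk' w hw' huk).2.trans ((X.pg (!b)).p4 w hw' v hv' z hz' hwv).1
  let f : W ↪ W × W × W := ⟨fun z => (x', z, y'), fun z z' h => by simpa using h⟩
  refine ⟨Finsupp.embDomain f η, ?_, ?_⟩
  · rw [Finsupp.sum_embDomain]
    show X.D.t (x' * a) * X.D.c k * X.D.t (c * y') = η.sum fun z p => p • (X.D.t x' * X.D.c z * X.D.t y')
    rw [← X.D.mul x' a hxl, ← X.D.mul c y' hyl]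
    have h4 : X.D.t x' * X.D.t a * X.D.c k * (X.D.t c * X.D.t y') =
        X.D.t x' * (X.D.t a * X.D.c k * X.D.t c) * X.D.t y' := by simp only [mul_assoc]
    rw [h4]
    conv_lhs => rw [sum_repr X.toBase (X.D.t a * X.D.c k * X.D.t c)]
    rw [← hη, Finsupp.sum, Finsupp.sum, Finset.mul_sum, Finset.sum_mul]
    refine Finset.sum_congr rfl fun z _ => ?_
    rw [mul_smul_comm, smul_mul_assoc]
  · intro r hr
    rw [Finsupp.support_embDomain, Finset.mem_map] at hr
    obtain ⟨z, hz, rfl⟩ := hr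
    have hz0 : η z ≠ 0 := Finsupp.mem_support_iff.1 hz
    have hzF : z ∈ par X.cs (X.F (!b)) := (hR' z haK ha hk hcK hc).1 hz0
    have hdeg := (hR' z haK ha hk hcK hc).2.1
    have htop := (hR' z haK ha hk hcK hc).2.2
    refine ⟨Or.inl ⟨!b, hx', hzF, hy'⟩, hαz z hz0, Or.inl ?_, fun M => ?_⟩
    · show X.nn x' z y' < X.nn (x' * a) k (c * y')
      have e1 : X.sl (x' * a) = X.sl x' + 1 := s8 (!b) x' a hx' ha haK'
      have e2 : X.sl (c * y') = X.sl y' + 1 := s9 (!b) y' c hy' hc hcK'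
      unfold AC.nn
      rw [if_pos hk, e1, e2]
      split_ifs <;> omega
    · rw [Finsupp.embDomain_apply_self]
      show DegLE ((X.α z : ℤ) - X.α k + X.eps M x' z y' - X.eps M (x' * a) k (c * y')) (η z)
      have e3 := X.eps_nonneg M x' z y'
      have e4 := X.eps_le_one M (x' * a) k (c * y')
      by_cases h0 : (η z).coeff ((X.α z : ℤ) - X.α k) = 0
      · exact (degLE_sub_one hdeg h0).mono (by omega)
      · obtain ⟨hr, hl⟩ := htop h0
        have e5 : X.eps M (x' * a) k (c * y') ≤ X.eps M x' z y' := by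
          apply X.eps_le
          · intro hge
            have := (h7 S W H X M).1 (!b) x' z (a * k) hx' hzF hr.2 hge
            rwa [← mul_assoc] at this
          · intro hge
            have := (h7 S W H X M).2.2.1 (!b) y' z (k * c) hy' hzF hl.2 hge
            rwa [mul_assoc] at this
        exact hdeg.mono (by omega)

end Pool.Agent.Helper44.AM
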