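import Pool.Agent.Helper15.AM.GoalsG

/-!
# Packet AM-GPB (MP_cc6379_al): parabolic subgroups, second part.
-/

set_option autoImplicit false

open Pool.Agent.Helper15.RA Pool.Agent.Helper45.AM Pool.Agent.Helper15.AM

namespace Pool.Agent.Helper44.AM

variable {S W : Type} [Group W] {M : CoxeterMatrix S} (cs : CoxeterSystem M W)

theorem simple_mem (P : Set S) {i : S} (hi : i ∈ P) : cs.simple i ∈ par cs P :=
  Subgroup.subset_closure ⟨i, hi, rfl⟩

theorem wordProd_mem (P : Set S) {ω : List S} (h : ∀ i ∈ ω, i ∈ P) : cs.wordProd ω ∈ par cs P := by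
  induction ω with
  | nil => simp
  | cons i ω ih =>
    rw [cs.wordProd_cons]
    exact (par cs P).mul_mem (simple_mem cs P (h i (by simp))) (ih fun j hj => h j (by simp [hj]))

theorem simple_inj (hO : G_ORD) : Function.Injective cs.simple := by
  intro i j h
  by_contra hne
  have h1 := hO S W M cs i j
  rw [h, cs.simple_mul_simple_self, orderOf_one] at h1
  exact M.off_diagonal i j hne h1.symm

theorem mem_of_simple (hO : G_ORD) (hA : G_PA) (P : Set S) {i : S} (h : cs.simple i ∈ par cs P) : i ∈ P := by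
  obtain ⟨ω, hω, hP, he⟩ := (hA S W M cs P).1 _ h
  have h1 : ω.length = 1 := by
    rw [← hω.eq, ← he, cs.length_simple]
  obtain ⟨j, rfl⟩ := List.length_eq_one_iff.1 h1
  rw [cs.wordProd_singleton] at he
  rw [simple_inj cs hO he]
  exact hP j (by simp)

theorem rdesc_mem (hO : G_ORD) (hE : G_EX) (hA : G_PA) (P : Set S) {w : W} (hw : w ∈ par cs P) {i : S}
    (h : cs.length (w * cs.simple i) < cs.length w) : i ∈ P := by
  obtain ⟨ω, hω, hP, rfl⟩ := (hA S W M cs P).1 _ hw
  obtain ⟨k, hk, he⟩ := hE S W M cs ω i hω h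
  apply mem_of_simple cs hO hA P
  have h2 : cs.wordProd ω * cs.simple i ∈ par cs P := by
    rw [he]
    exact wordProd_mem cs P fun j hj => hP j (List.mem_of_mem_eraseIdx hj)
  have h3 := (par cs P).mul_mem ((par cs P).inv_mem hw) h2
  rwa [inv_mul_cancel_left] at h3

theorem ldesc_mem (hO : G_ORD) (hE : G_EX) (hA : G_PA) (P : Set S) {w : W} (hw : w ∈ par cs P) {i : S}
    (h : cs.length (cs.simple i * w) < cs.length w) : i ∈ P := by
  apply rdesc_mem cs hO hE hA P ((par cs P).inv_mem hw)
  have h1 : w⁻¹ * cs.simple i = (cs.simple i * w)⁻¹ := by simp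
  rw [h1, cs.length_inv, cs.length_inv]
  exact h

theorem word_mem (hO : G_ORD) (hE : G_EX) (hA : G_PA) (P : Set S) (ω : List S) :
    cs.IsReduced ω → cs.wordProd ω ∈ par cs P → ∀ i ∈ ω, i ∈ P := by
  induction ω with
  | nil => intro _ _ i hi; simp at hi
  | cons j ω ih =>
    intro hred hmem
    have hred' : cs.IsReduced ω := by simpa using hred.drop 1
    have hj : j ∈ P := by
      apply ldesc_mem cs hO hE hA P hmem
      rw [hred.eq, cs.wordProd_cons, cs.simple_mul_simple_cancel_left, hred'.eq]
      simp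
    have hmem' : cs.wordProd ω ∈ par cs P := by
      have h1 := (par cs P).mul_mem (simple_mem cs P hj) hmem
      rwa [cs.wordProd_cons, cs.simple_mul_simple_cancel_left] at h1
    intro i hi
    rcases List.mem_cons.1 hi with rfl | hi
    · exact hj
    · exact ih hred' hmem' i hi

theorem h_gpb (hO : G_ORD) (hE : G_EX) (hA : G_PA) : G_PB := by
  intro S W _ M cs
  refine ⟨simple_inj cs hO, fun P => ⟨fun i hi => mem_of_simple cs hO hA P hi,
    fun w hw i h => rdesc_mem cs hO hE hA P hw h, fun w hw i h => ldesc_mem cs hO hE hA P hw h,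
    fun ω h1 h2 => word_mem cs hO hE hA P ω h1 h2, ?_, ?_⟩⟩
  · intro u v hl hm
    obtain ⟨ω, hω, rfl⟩ := cs.exists_isReduced u
    obtain ⟨η, hη, rfl⟩ := cs.exists_isReduced v
    rw [← cs.wordProd_append] at hl hm
    have hred : cs.IsReduced (ω ++ η) := by
      show cs.length _ = _
      rw [hl, hω.eq, hη.eq, List.length_append]
    have hP := word_mem cs hO hE hA P _ hred hm
    exact ⟨wordProd_mem cs P fun i hi => hP i (List.mem_append_left _ hi),
      wordProd_mem cs P fun i hi => hP i (List.mem_append_right _ hi)⟩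
  · intro Q
    apply le_antisymm
    · intro w hw
      obtain ⟨ω, hω, rfl⟩ := cs.exists_isReduced w
      exact wordProd_mem cs _ fun i hi => ⟨word_mem cs hO hE hA P _ hω hw.1 i hi,
        word_mem cs hO hE hA Q _ hω hw.2 i hi⟩
    · exact le_inf (Subgroup.closure_mono (Set.image_mono Set.inter_subset_left))
        (Subgroup.closure_mono (Set.image_mono Set.inter_subset_right))

end Pool.Agent.Helper44.AM
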