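import Pool.Agent.Helper45.AM.GoalsP
import Pool.Agent.Helper15.AM.GoalsG
import Pool.Agent.Helper15.RA.GoalsH

/-!
# Packet AM-P1 (MP_cc6379_al): the Hecke algebra of a direct product.
-/

set_option autoImplicit false

open LaurentPolynomial Pool.Agent.Helper15.RA Pool.Agent.Helper45.AM Pool.Agent.Helper15.AM

noncomputable section

namespace Pool.Agent.Helper44.AM.P

section grp

variable {S W : Type} [Group W] {M : CoxeterMatrix S} (cs : CoxeterSystem M W) {P Q : Set S}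

theorem simple_comm {i j : S} (h : M i j = 2) : cs.simple i * cs.simple j = cs.simple j * cs.simple i := by
  have h1 := cs.simple_mul_simple_pow i j
  rw [h, pow_two] at h1
  have h2 : (cs.simple i * cs.simple j)⁻¹ = cs.simple i * cs.simple j := inv_eq_of_mul_eq_one_left h1
  rw [← h2, mul_inv_rev, cs.inv_simple, cs.inv_simple]

theorem par_comm (h : ∀ i ∈ P, ∀ j ∈ Q, M i j = 2) {g g' : W} (hg : g ∈ par cs P) (hg' : g' ∈ par cs Q) :
    g * g' = g' * g := by
  have h1 : par cs P ≤ Subgroup.centralizer (par cs Q : Set W) := by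
    refine (Subgroup.closure_le _).2 ?_
    rintro _ ⟨i, hi, rfl⟩
    have h2 : par cs Q ≤ Subgroup.centralizer {cs.simple i} := by
      refine (Subgroup.closure_le _).2 ?_
      rintro _ ⟨j, hj, rfl⟩
      rw [SetLike.mem_coe, Subgroup.mem_centralizer_singleton_iff]
      exact (simple_comm cs (h i hi j hj)).symm
    rw [SetLike.mem_coe, Subgroup.mem_centralizer_iff]
    intro q hq
    have h3 := h2 hq
    rw [Subgroup.mem_centralizer_singleton_iff] at h3
    exact h3
  have h4 := h1 hg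
  rw [Subgroup.mem_centralizer_iff] at h4
  exact (h4 g' hg').symm

theorem xr_of_mem (hB : G_PB) (h : ∀ i ∈ P, ∀ j ∈ Q, M i j = 2) {g : W} (hg : g ∈ par cs P) : XR cs Q g := by
  intro j hj
  rcases cs.length_mul_simple g j with h1 | h1
  · exact h1
  · exfalso
    have h2 : j ∈ P := ((hB S W M cs).2 P).2.1 g hg j (by omega)
    have h3 := h j h2 j hj
    rw [M.diagonal] at h3
    omega

theorem mem_union (h : ∀ i ∈ P, ∀ j ∈ Q, M i j = 2) (w : W) :
    w ∈ par cs (P ∪ Q) ↔ ∃ g ∈ par cs P, ∃ g' ∈ par cs Q, w = g * g' := by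
  constructor
  · intro hw
    induction hw using Subgroup.closure_induction with
    | mem x hx =>
      obtain ⟨i, hi | hi, rfl⟩ := hx
      · exact ⟨cs.simple i, Subgroup.subset_closure ⟨i, hi, rfl⟩, 1, one_mem _, (mul_one _).symm⟩
      · exact ⟨1, one_mem _, cs.simple i, Subgroup.subset_closure ⟨i, hi, rfl⟩, (one_mul _).symm⟩
    | one => exact ⟨1, one_mem _, 1, one_mem _, (mul_one _).symm⟩
    | mul x y _ _ hx hy =>
      obtain ⟨g, hg, g', hg', rfl⟩ := hx
      obtain ⟨k, hk, k', hk', rfl⟩ := hy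
      refine ⟨g * k, mul_mem hg hk, g' * k', mul_mem hg' hk', ?_⟩
      have h1 := par_comm cs h hk hg'
      rw [mul_assoc, ← mul_assoc g' k k', ← h1]
      simp only [mul_assoc]
    | inv x _ hx =>
      obtain ⟨g, hg, g', hg', rfl⟩ := hx
      refine ⟨g⁻¹, inv_mem hg, g'⁻¹, inv_mem hg', ?_⟩
      rw [par_comm cs h hg hg', mul_inv_rev]
  · rintro ⟨g, hg, g', hg', rfl⟩
    exact mul_mem (Subgroup.closure_mono (Set.image_mono Set.subset_union_left) hg)
      (Subgroup.closure_mono (Set.image_mono Set.subset_union_right) hg')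

end grp

section lin

variable {W H : Type} [Group W] [Ring H] [Algebra ℤ[T;T⁻¹] H] (B : Module.Basis W ℤ[T;T⁻¹] H)
  {G G' : Subgroup W}

/-- coordinates of a product in the direct product of two subgroups -/
theorem prod_expand (hB : ∀ u ∈ G, ∀ u' ∈ G', B u * B u' = B (u * u')) {Y Z : H}
    (hY : ∀ z, B.repr Y z ≠ 0 → z ∈ G) (hZ : ∀ z, B.repr Z z ≠ 0 → z ∈ G') (y : W) :
    B.repr (Y * Z) y = ∑ u ∈ (B.repr Y).support, ∑ u' ∈ (B.repr Z).support,
      (B.repr Y u * B.repr Z u') * (Finsupp.single (u * u') (1 : ℤ[T;T⁻¹]) y) := by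
  have h1 : Y * Z = ∑ u ∈ (B.repr Y).support, ∑ u' ∈ (B.repr Z).support,
      (B.repr Y u * B.repr Z u') • B (u * u') := by
    conv_lhs => rw [← B.linearCombination_repr Y, ← B.linearCombination_repr Z,
      Finsupp.linearCombination_apply, Finsupp.linearCombination_apply, Finsupp.sum, Finsupp.sum,
      Finset.sum_mul]
    refine Finset.sum_congr rfl fun u hu => ?_
    rw [Finset.mul_sum]
    refine Finset.sum_congr rfl fun u' hu' => ?_
    rw [smul_mul_smul_comm, hB u (hY u (Finsupp.mem_support_iff.1 hu)) u' (hZ u' (Finsupp.mem_support_iff.1 hu'))]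
  rw [h1, map_sum, Finsupp.coe_finsetSum, Finset.sum_apply]
  refine Finset.sum_congr rfl fun u _ => ?_
  rw [map_sum, Finsupp.coe_finsetSum, Finset.sum_apply]
  refine Finset.sum_congr rfl fun u' _ => ?_
  rw [map_smul, Finsupp.smul_apply, B.repr_self, smul_eq_mul]

theorem prod_repr (hB : ∀ u ∈ G, ∀ u' ∈ G', B u * B u' = B (u * u'))
    (huniq : ∀ g ∈ G, ∀ g' ∈ G', ∀ k ∈ G, ∀ k' ∈ G', g * g' = k * k' → g = k ∧ g' = k') {Y Z : H}
    (hY : ∀ z, B.repr Y z ≠ 0 → z ∈ G) (hZ : ∀ z, B.repr Z z ≠ 0 → z ∈ G') {l l' : W} (hl : l ∈ G)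
    (hl' : l' ∈ G') : B.repr (Y * Z) (l * l') = B.repr Y l * B.repr Z l' := by
  classical
  rw [prod_expand B hB hY hZ, Finset.sum_eq_single l, Finset.sum_eq_single l']
  · rw [Finsupp.single_eq_same, mul_one]
  · intro u' hu' hne
    rw [Finsupp.single_eq_of_ne, mul_zero]
    intro h
    exact hne (huniq l hl u' (hZ u' (Finsupp.mem_support_iff.1 hu')) l hl l' hl' h.symm).2
  · intro h
    rw [Finsupp.notMem_support_iff.1 h, mul_zero, zero_mul]
  · intro u hu hne
    refine Finset.sum_eq_zero fun u' hu' => ?_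
    rw [Finsupp.single_eq_of_ne, mul_zero]
    intro h
    exact hne (huniq u (hY u (Finsupp.mem_support_iff.1 hu)) u' (hZ u' (Finsupp.mem_support_iff.1 hu')) l hl l' hl'
      h.symm).1
  · intro h
    refine Finset.sum_eq_zero fun u' _ => ?_
    rw [Finsupp.notMem_support_iff.1 h, zero_mul, zero_mul]

theorem prod_zero (hB : ∀ u ∈ G, ∀ u' ∈ G', B u * B u' = B (u * u')) {Y Z : H}
    (hY : ∀ z, B.repr Y z ≠ 0 → z ∈ G) (hZ : ∀ z, B.repr Z z ≠ 0 → z ∈ G') {y : W}
    (hy : ¬ ∃ l ∈ G, ∃ l' ∈ G', y = l * l') : B.repr (Y * Z) y = 0 := by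
  classical
  rw [prod_expand B hB hY hZ]
  refine Finset.sum_eq_zero fun u hu => Finset.sum_eq_zero fun u' hu' => ?_
  rw [Finsupp.single_eq_of_ne, mul_zero]
  intro h
  exact hy ⟨u, hY u (Finsupp.mem_support_iff.1 hu), u', hZ u' (Finsupp.mem_support_iff.1 hu'), h⟩

end lin

section base

variable {S W H : Type} [Group W] [Ring H] [Algebra ℤ[T;T⁻¹] H] (X : Base S W H) {P Q : Set S}

/-- everything about `c_g c_g'` -/
theorem c_mul (hA : G_PA) (hB : G_PB) (hC : G_PC) (h2 : H_2) (hS : A_S)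
    (h : ∀ i ∈ P, ∀ j ∈ Q, X.M i j = 2) {g g' : W} (hg : g ∈ par X.cs P) (hg' : g' ∈ par X.cs Q) :
    X.D.c (g * g') = X.D.c g * X.D.c g' := by
  obtain ⟨-, -, -, b4, b5, b6, b7, -⟩ := h2 S W H X.M X.cs X.L X.wt X.D
  have huniq : ∀ g ∈ par X.cs P, ∀ g' ∈ par X.cs Q, ∀ k ∈ par X.cs P, ∀ k' ∈ par X.cs Q, g * g' = k * k' →
      g = k ∧ g' = k' := fun g hg g' hg' k hk k' hk' he =>
    (hC S W X.M X.cs Q).1 g k g' k' (xr_of_mem X.cs hB h hg) (xr_of_mem X.cs hB h hk) hg' hk' he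
  have hT : ∀ u ∈ par X.cs P, ∀ u' ∈ par X.cs Q, X.D.t u * X.D.t u' = X.D.t (u * u') := fun u hu u' hu' =>
    X.D.mul u u' ((hA S W X.M X.cs Q).2.2 u (xr_of_mem X.cs hB h hu) u' hu')
  have hcP := (hS S W H X P).2.2.2.1 g hg
  have hcQ := (hS S W H X Q).2.2.2.1 g' hg'
  have d1 : ∀ u, DegLE 0 (X.D.t.repr (X.D.c g) u) := fun u => by
    by_cases hu : u = g
    · rw [hu, b4]
      exact DegLE.one le_rfl
    · exact (b6 g u hu).mono (by omega)
  have d2 : ∀ u, DegLE 0 (X.D.t.repr (X.D.c g') u) := fun u => by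
    by_cases hu : u = g'
    · rw [hu, b4]
      exact DegLE.one le_rfl
    · exact (b6 g' u hu).mono (by omega)
  symm
  apply b7 (g * g')
  · rw [map_mul, X.D.bar_c, X.D.bar_c]
  · intro y
    rw [map_sub, Finsupp.sub_apply, X.D.t.repr_self]
    by_cases hy : ∃ l ∈ par X.cs P, ∃ l' ∈ par X.cs Q, y = l * l'
    · obtain ⟨l, hl, l', hl', rfl⟩ := hy
      rw [prod_repr X.D.t hT huniq hcP hcQ hl hl']
      by_cases h1 : l = g
      · by_cases h3 : l' = g'
        · rw [h1, h3, b4, b4, Finsupp.single_eq_same, mul_one, sub_self]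
          exact DegLE.zero _
        · rw [Finsupp.single_eq_of_ne fun he => h3 (huniq l hl l' hl' g hg g' hg' he).2, sub_zero]
          exact (d1 l).mul_le (b6 g' l' h3) (by omega)
      · rw [Finsupp.single_eq_of_ne fun he => h1 (huniq l hl l' hl' g hg g' hg' he).1, sub_zero]
        exact (b6 g l h1).mul_le (d2 l') (by omega)
    · rw [prod_zero X.D.t hT hcP hcQ hy, Finsupp.single_eq_of_ne, sub_zero]
      · exact DegLE.zero _
      · intro he
        exact hy ⟨g, hg, g', hg', he⟩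

end base

end Pool.Agent.Helper44.AM.P

namespace Pool.Agent.Helper44.AM

open Pool.Agent.Helper44.AM.P

theorem h_p_1 (hA : G_PA) (hB : G_PB) (hC : G_PC) (h2 : H_2) (hAB : A_B) (hS : A_S) : P_1 := by
  intro S W H _ _ _ X P Q h
  have h' : ∀ i ∈ Q, ∀ j ∈ P, X.M i j = 2 := fun i hi j hj => by
    rw [X.M.symmetric i j]
    exact h j hj i hi
  have hlen : ∀ g ∈ par X.cs P, ∀ g' ∈ par X.cs Q, X.cs.length (g * g') = X.cs.length g + X.cs.length g' :=
    fun g hg g' hg' => (hA S W X.M X.cs Q).2.2 g (xr_of_mem X.cs hB h hg) g' hg'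
  have huniq : ∀ g ∈ par X.cs P, ∀ g' ∈ par X.cs Q, ∀ k ∈ par X.cs P, ∀ k' ∈ par X.cs Q, g * g' = k * k' →
      g = k ∧ g' = k' := fun g hg g' hg' k hk k' hk' he =>
    (hC S W X.M X.cs Q).1 g k g' k' (xr_of_mem X.cs hB h hg) (xr_of_mem X.cs hB h hk) hg' hk' he
  have hT : ∀ u ∈ par X.cs P, ∀ u' ∈ par X.cs Q, X.D.t u * X.D.t u' = X.D.t (u * u') := fun u hu u' hu' =>
    X.D.mul u u' (hlen u hu u' hu')
  have hT' : ∀ u ∈ par X.cs P, ∀ u' ∈ par X.cs Q, X.D.t u' * X.D.t u = X.D.t u * X.D.t u' := fun u hu u' hu' => by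
    rw [hT u hu u' hu', par_comm X.cs h hu hu']
    apply X.D.mul
    exact (hA S W X.M X.cs P).2.2 u' (xr_of_mem X.cs hB h' hu') u hu
  have hc : ∀ u ∈ par X.cs P, ∀ u' ∈ par X.cs Q, X.D.c (u * u') = X.D.c u * X.D.c u' := fun u hu u' hu' =>
    c_mul X hA hB hC h2 hS h hu hu'
  have hc' : ∀ u ∈ par X.cs P, ∀ u' ∈ par X.cs Q, X.D.c u' * X.D.c u = X.D.c u * X.D.c u' := fun u hu u' hu' => by
    rw [← c_mul X hA hB hC h2 hS h' hu' hu, ← par_comm X.cs h hu hu', hc u hu u' hu']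
  refine ⟨fun g hg g' hg' => ⟨par_comm X.cs h hg hg', hlen g hg g' hg'⟩, huniq, mem_union X.cs h, ?_, ?_⟩
  · intro g hg g' hg'
    refine ⟨hc g hg g' hg', ?_⟩
    rw [hc g hg g' hg']
    have h5 := prod_repr X.D.t hT huniq ((hS S W H X P).2.2.2.1 g hg) ((hS S W H X Q).2.2.2.1 g' hg')
      (one_mem _) (one_mem _)
    rwa [mul_one] at h5
  · intro g hg g' hg' k hk k' hk' l hl l' hl'
    constructor
    · have h6 : X.D.c (g * g') * X.D.c (k * k') = (X.D.c g * X.D.c k) * (X.D.c g' * X.D.c k') := by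
        rw [hc g hg g' hg', hc k hk k' hk', mul_assoc, ← mul_assoc (X.D.c g') (X.D.c k), hc' k hk g' hg']
        simp only [mul_assoc]
      have hAB1 := (hAB S W H X).1
      rw [← hAB1, ← hAB1, ← hAB1, h6]
      apply prod_repr X.b _ huniq _ _ hl hl'
      · intro u hu u' hu'
        rw [X.hb, X.hb, X.hb, hc u hu u' hu']
      · intro z hz
        rw [hAB1] at hz
        exact (hS S W H X P).2.2.2.2.2.1 g hg k hk z hz
      · intro z hz
        rw [hAB1] at hz
        exact (hS S W H X Q).2.2.2.2.2.1 g' hg' k' hk' z hz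
    · have h6 : X.D.t (g * g') * X.D.t (k * k') = (X.D.t g * X.D.t k) * (X.D.t g' * X.D.t k') := by
        rw [← hT g hg g' hg', ← hT k hk k' hk', mul_assoc, ← mul_assoc (X.D.t g') (X.D.t k), hT' k hk g' hg']
        simp only [mul_assoc]
      rw [h6]
      apply prod_repr X.D.t hT huniq _ _ hl hl'
      · intro z hz
        have h7 := (hS S W H X P).1 g hg k z hz
        have h8 := mul_mem h7 hk
        rwa [inv_mul_cancel_right] at h8
      · intro z hz
        have h7 := (hS S W H X Q).1 g' hg' k' z hz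
        have h8 := mul_mem h7 hk'
        rwa [inv_mul_cancel_right] at h8

end Pool.Agent.Helper44.AM
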